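import Pool.Agent.H44.GT.Targets

/-!
# The class of an invariant measure is a cocycle
-/

set_option autoImplicit false

namespace Pool.Agent.H16.GD

open Pool.Agent.H44.DU

theorem pf_M_COC : M_COC := by
  intro n S t p hp
  have key : ∀ s : Side n, xi t (S.Q s) ≤ xi t (S.P s) →
      S.cc t p (S.gl s) = -S.cc t p s := by
    intro s hs
    have h := hp.glue s (xi t (S.Q s)) (xi t (S.P s)) le_rfl hs le_rfl
    unfold Surf.cc
    rw [Surf.xi_Q_gl, Surf.xi_P_gl]
    linarith
  refine ⟨fun s => ?_, fun s => ?_⟩
  · rcases le_total (xi t (S.Q s)) (xi t (S.P s)) with h | h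
    · exact key s h
    · rcases le_total (xi t (S.Q (S.gl s))) (xi t (S.P (S.gl s))) with h' | h'
      · have := key (S.gl s) h'
        rw [S.gl_gl] at this
        linarith
      · -- both orientations: the side is constant
        have h2 : xi t (S.P s) = xi t (S.Q s) := by
          rw [Surf.xi_Q_gl, Surf.xi_P_gl] at h'
          by_contra hne
          have hlt : xi t (S.P s) < xi t (S.Q s) := lt_of_le_of_ne h hne
          have := (S.mv_lt_iff t s).2 hlt
          linarith
        exact key s (le_of_eq h2.symm)
  · unfold Surf.cc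
    rw [Surf.P_nx, Surf.Q_nx, Surf.P_nx_nx, Surf.Q_nx_nx]
    simp only [nx_fst]
    ring

end Pool.Agent.H16.GD
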